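import Pool.Agent.Helper89.A8.Stmts
import Pool.Agent.Helper89.A8.GTools

/-!
# Block A8-G08: homomorphisms of local subgroups to small modules
-/

set_option autoImplicit false

namespace Pool.Agent.A8

open Matrix

theorem bUQ (h1 : S_END) (h2 : S_SIM) : S_UQ := by
  intro G _ _ π hC R a φ hR b θ hθ
  by_cases hne : ∀ x ∈ R, θ x = 0
  · exact Or.inl hne
  right
  push Not at hne
  obtain ⟨x0, hx0, hx0'⟩ := hne
  have hsb := h2 b
  have hsa := h2 a
  -- the image of `θ` is everything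
  let S : AddSubgroup (Md b) :=
    { carrier := {m | ∃ x ∈ R, θ x = m}
      add_mem' := by
        rintro _ _ ⟨x, hx, rfl⟩ ⟨y, hy, rfl⟩
        exact ⟨x * y, R.mul_mem hx hy, hθ.mul x hx y hy⟩
      zero_mem' := ⟨1, R.one_mem, hθ.map_one⟩
      neg_mem' := by
        rintro _ ⟨x, hx, rfl⟩
        exact ⟨x⁻¹, R.inv_mem hx, by rw [hθ.map_inv hx, neg_eq]⟩ }
  have hS : ∀ g, ∀ x ∈ S, act g x ∈ S := by
    rintro g _ ⟨x, hx, rfl⟩
    obtain ⟨k, rfl⟩ := hC.surj g
    exact ⟨k * x * k⁻¹, hR.normal.conj_mem x hx k, hθ.conj k x hx⟩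
  have hsurj : ∀ m : Md b, ∃ x ∈ R, θ x = m := by
    have htop : mkSub S hS = ⊤ := by
      rcases eq_bot_or_eq_top (mkSub S hS) with h | h
      · exfalso
        have h3 : θ x0 ∈ mkSub S hS := ⟨x0, hx0, rfl⟩
        rw [h, Submodule.mem_bot] at h3
        exact hx0' h3
      · exact h
    intro m
    have h3 : m ∈ mkSub S hS := by rw [htop]; exact Submodule.mem_top
    exact h3
  choose f hfR hf using hsurj
  have hwd : ∀ x ∈ R, ∀ y ∈ R, θ x = θ y → φ x = φ y := by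
    intro x hx y hy hxy
    have h3 : θ (x * y⁻¹) = 0 := by rw [hθ.map_mul_inv hx hy, hxy, add_self]
    have h4 := hR.ker_le hθ ⟨x0, hx0, hx0'⟩ (R.mul_mem hx (R.inv_mem hy)) h3
    rw [hR.toHomOn.map_mul_inv hx hy] at h4
    have h5 : φ x = -φ y := eq_neg_of_add_eq_zero_left h4
    rw [h5, neg_eq]
  let g0 : Md b →+ Md a :=
    { toFun := fun m => φ (f m)
      map_zero' := by
        rw [hwd (f 0) (hfR 0) 1 R.one_mem (by rw [hf, hθ.map_one]), hR.toHomOn.map_one]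
      map_add' := by
        intro m m'
        rw [← hR.toHomOn.mul _ (hfR m) _ (hfR m')]
        refine hwd _ (hfR _) _ (R.mul_mem (hfR m) (hfR m')) ?_
        rw [hf, hθ.mul _ (hfR m) _ (hfR m'), hf, hf] }
  let g : Md b →ₗ[RG] Md a := mkLin g0 (by
    intro γ m
    obtain ⟨k, rfl⟩ := hC.surj γ
    change φ (f (act (π k) m)) = act (π k) (φ (f m))
    rw [← hR.toHomOn.conj k _ (hfR m)]
    refine hwd _ (hfR _) _ (hR.normal.conj_mem _ (hfR m) k) ?_
    rw [hf, hθ.conj k _ (hfR m), hf])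
  have hg : ∀ x ∈ R, g (θ x) = φ x := by
    intro x hx
    change φ (f (θ x)) = φ x
    exact hwd _ (hfR _) _ hx (hf _)
  rcases h1 b a g with h3 | ⟨h3, h4⟩
  · exfalso
    have : Nontrivial (Md a) := IsSimpleModule.nontrivial RG (Md a)
    obtain ⟨m, hm⟩ := exists_ne (0 : Md a)
    obtain ⟨x, hx, rfl⟩ := hR.surj m
    rw [← hg x hx, h3] at hm
    exact hm rfl
  · subst h3
    refine ⟨rfl, fun x hx => ?_⟩
    have h5 := hg x hx
    rw [h4] at h5
    exact h5

theorem bUQK (h : S_UQ) : S_UQK := by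
  intro G _ _ π hC a b θ hθ ⟨x, hx, hx'⟩
  by_contra hab
  have hle : Kt π a ≤ hθ.kerG := by
    refine sSup_le ?_
    rintro R ⟨φ, hR⟩ y hy
    refine ⟨hR.le_Kt hy, ?_⟩
    rcases h G π hC R a φ hR b θ (hθ.mono hR.le_Kt) with h1 | ⟨h1, -⟩
    · exact h1 y hy
    · exact absurd h1 hab
  exact hx' (hle hx).2

end Pool.Agent.A8
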