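import Pool.Agent.Helper89.A8.StmtsMT

/-!
# Block A8-M19b: the unique simple submodule of `Z`
-/

set_option autoImplicit false

namespace Pool.Agent.A8

open Matrix

namespace M19b

section
variable {X : Type} [AddCommGroup X] [Module RG X]

theorem heads_quot {a : Ty} (h : Heads a X) (K : Submodule RG X) : Heads a (X ⧸ K) := by
  intro N hN
  have hN' : IsCoatom (N.comap K.mkQ) := by
    constructor
    · intro htop
      apply hN.1
      rw [eq_top_iff]
      intro x _
      obtain ⟨x, rfl⟩ := Submodule.Quotient.mk_surjective _ x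
      have : x ∈ N.comap K.mkQ := by rw [htop]; exact Submodule.mem_top
      exact this
    · intro P hP
      have h1 : N < P.map K.mkQ := by
        refine lt_of_le_of_ne ?_ ?_
        · intro x hx
          obtain ⟨x, rfl⟩ := Submodule.Quotient.mk_surjective _ x
          exact ⟨x, hP.le hx, rfl⟩
        · intro heq
          apply hP.not_ge
          intro x hx
          change K.mkQ x ∈ N
          rw [heq]
          exact ⟨x, hx, rfl⟩
      have h2 := hN.2 _ h1
      rw [eq_top_iff]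
      intro x _
      have h3 : K.mkQ x ∈ P.map K.mkQ := by rw [h2]; exact Submodule.mem_top
      obtain ⟨y, hy, hyx⟩ := h3
      have h4 : x - y ∈ K := by
        rw [← Submodule.Quotient.eq]
        exact hyx.symm
      have h5 : x - y ∈ P := hP.le (by
        change K.mkQ (x - y) ∈ N
        have : K.mkQ (x - y) = 0 := by
          rw [Submodule.mkQ_apply, Submodule.Quotient.mk_eq_zero]; exact h4
        rw [this]; exact N.zero_mem)
      have := P.add_mem h5 hy
      rwa [sub_add_cancel] at this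
  obtain ⟨f, hf, hker⟩ := h _ hN'
  have hK : K ≤ LinearMap.ker f := by
    rw [hker]
    intro x hx
    change K.mkQ x ∈ N
    have : K.mkQ x = 0 := by
      rw [Submodule.mkQ_apply, Submodule.Quotient.mk_eq_zero]; exact hx
    rw [this]; exact N.zero_mem
  refine ⟨K.liftQ f hK, ?_, ?_⟩
  · intro m
    obtain ⟨x, rfl⟩ := hf m
    exact ⟨K.mkQ x, by simp⟩
  · ext x
    obtain ⟨x, rfl⟩ := Submodule.Quotient.mk_surjective _ x
    rw [LinearMap.mem_ker, Submodule.liftQ_apply, ← LinearMap.mem_ker, hker]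
    rfl

/-- a finite nonzero module with heads of type `a` has a local submodule with head of type `a` -/
theorem exists_loc [Finite X] [Nontrivial X] {a : Ty} (h : Heads a X) :
    ∃ P : Submodule RG X, Nontrivial P ∧ IsLoc P ∧ Heads a P := by
  have hfin : Finite (Submodule RG X) := inferInstance
  obtain ⟨N₀, hN₀⟩ : ∃ N : Submodule RG X, IsCoatom N := IsCoatomic.exists_coatom _
  obtain ⟨P, hP⟩ := Set.Finite.exists_minimal (Set.toFinite {P : Submodule RG X | ¬ P ≤ N₀})
    ⟨⊤, fun h1 => hN₀.1 (top_le_iff.1 h1)⟩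
  have hPN : ¬ P ≤ N₀ := hP.prop
  -- proper submodules
  have key : ∀ Q : Submodule RG P, Q ≠ ⊤ → Q ≤ N₀.comap P.subtype := by
    intro Q hQ
    by_contra hcon
    have h1 : ¬ Q.map P.subtype ≤ N₀ := by
      intro h2
      apply hcon
      intro x hx
      exact h2 ⟨x, hx, rfl⟩
    have h2 : Q.map P.subtype ≤ P := Submodule.map_subtype_le P Q
    have h3 : P ≤ Q.map P.subtype := hP.le_of_le h1 h2
    apply hQ
    rw [eq_top_iff]
    rintro ⟨x, hx⟩ _
    obtain ⟨y, hy, hyx⟩ := h3 hx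
    have : y = ⟨x, hx⟩ := Subtype.ext hyx
    rw [← this]; exact hy
  have hne : N₀.comap P.subtype ≠ ⊤ := by
    intro htop
    apply hPN
    intro x hx
    have : (⟨x, hx⟩ : P) ∈ N₀.comap P.subtype := by rw [htop]; exact Submodule.mem_top
    exact this
  have hco : IsCoatom (N₀.comap P.subtype) := by
    refine ⟨hne, fun Q hQ => ?_⟩
    by_contra hcon
    exact hQ.not_ge (key Q hcon)
  refine ⟨P, ?_, ⟨_, hco, key⟩, ?_⟩
  · by_contra hcon
    rw [not_nontrivial_iff_subsingleton] at hcon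
    apply hPN
    intro x hx
    have : (⟨x, hx⟩ : P) = 0 := Subsingleton.elim _ _
    have h1 : x = 0 := congrArg Subtype.val this
    rw [h1]; exact N₀.zero_mem
  · intro N hN
    have hN' : N = N₀.comap P.subtype := by
      rcases eq_or_lt_of_le (key N hN.1) with h1 | h1
      · exact h1
      · exact absurd (hN.2 _ h1) hne
    obtain ⟨g, hg, hker⟩ := h N₀ hN₀
    refine ⟨g.comp P.subtype, ?_, ?_⟩
    · intro m
      obtain ⟨w, rfl⟩ := hg m
      have h1 : N₀ ⊔ P = ⊤ := by
        apply hN₀.2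
        refine lt_of_le_of_ne le_sup_left ?_
        intro heq
        apply hPN
        rw [heq]; exact le_sup_right
      have h2 : w ∈ N₀ ⊔ P := by rw [h1]; exact Submodule.mem_top
      obtain ⟨n, hn, q, hq, rfl⟩ := Submodule.mem_sup.1 h2
      refine ⟨⟨q, hq⟩, ?_⟩
      have h3 : g n = 0 := by
        rw [← LinearMap.mem_ker, hker]; exact hn
      change g q = g (n + q)
      rw [map_add, h3, zero_add]
    · rw [hN']
      ext x
      rw [LinearMap.mem_ker, Submodule.mem_comap, ← hker, LinearMap.mem_ker]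
      rfl

end

section
variable {X Y Z : Type} [AddCommGroup X] [Module RG X] [AddCommGroup Y] [Module RG Y]
  [AddCommGroup Z] [Module RG Z] {p : X →+ Y →+ Z}

/-- quotient on the left and in the values only -/
noncomputable def lq (hp : Adm p) (N : Submodule RG Z) : (X ⧸ kL hp N) →+ Y →+ (Z ⧸ N) :=
  pcomp LinearMap.id (kR hp N).mkQ LinearMap.id (qp hp N)

theorem lq_mk (hp : Adm p) (N : Submodule RG Z) (x : X) (y : Y) :
    lq hp N (Submodule.Quotient.mk x) y = Submodule.Quotient.mk (p x y) := qp_mk hp N x y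

theorem lq_adm (hp : Adm p) (N : Submodule RG Z) : Adm (lq hp N) := pcomp_adm _ _ _ (qp_adm hp N)

theorem lq_perfL (hp : Adm p) (N : Submodule RG Z) : PerfL (lq hp N) := by
  intro x hx
  apply qp_perfL hp N
  intro y
  obtain ⟨y, rfl⟩ := Submodule.Quotient.mk_surjective _ y
  exact hx y

end

end M19b

open M19b

theorem bMTB (h1 : S_UNIV) (h2 : S_UC) (h3 : S_GG) (h4 : S_U23) (h5 : S_SIM) (h6 : S_END) :
    S_MTB := by
  intro X Y Z _ _ _ _ _ _ _ _ _ fX fY fZ hX hY p hp hpL hpR hspan M hM hmin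
  -- `Y` is nonzero
  have hZ : ∃ x y, p x y ≠ 0 := by
    by_contra hcon
    push Not at hcon
    have h7 : (⊥ : Submodule RG Z) = ⊤ :=
      hspan ⊥ fun x y => by rw [Submodule.mem_bot]; exact hcon x y
    apply hM
    rw [eq_bot_iff, h7]
    exact le_top
  obtain ⟨x₀, y₀, hxy₀⟩ := hZ
  have hYn : Nontrivial Y := ⟨y₀, 0, fun h => hxy₀ (by rw [h, map_zero])⟩
  obtain ⟨Y', hY'⟩ : ∃ Y' : Submodule RG Y, IsAtom Y' := IsAtomic.exists_atom _
  have sY' : IsSimpleModule RG Y' := isSimpleModule_iff_isAtom.2 hY'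
  have nY' : Nontrivial Y' := IsSimpleModule.nontrivial RG Y'
  -- the restricted pairing
  set p' : X →+ Y' →+ Z := pcomp LinearMap.id Y'.subtype LinearMap.id p with hp'def
  have hp' : Adm p' := pcomp_adm _ _ _ hp
  have hp'a : ∀ x (y : Y'), p' x y = p x y := fun x y => rfl
  obtain ⟨x₁, y₁, hxy₁⟩ : ∃ x y, p' x y ≠ 0 := by
    obtain ⟨y, hy⟩ := exists_ne (0 : Y')
    by_contra hcon
    push Not at hcon
    apply hy
    apply Subtype.ext
    exact hpR y fun x => hcon x y
  set S₁ : Submodule RG Z := spn p' with hS₁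
  set p'' : X →+ Y' →+ S₁ := pcod p' S₁ mem_spn with hp''def
  have hp'' : Adm p'' := pcod_adm hp' S₁ mem_spn
  have nS₁ : Nontrivial S₁ := ⟨p'' x₁ y₁, 0, fun h => hxy₁ (congrArg Subtype.val h)⟩
  obtain ⟨N, hN⟩ : ∃ N : Submodule RG S₁, IsCoatom N := IsCoatomic.exists_coatom _
  have sS : IsSimpleModule RG (S₁ ⧸ N) := isSimpleModule_iff_isCoatom.2 hN
  -- nonzero modulo `N`
  obtain ⟨x₂, y₂, hxy₂⟩ : ∃ x y, p'' x y ∉ N := by
    by_contra hcon
    push Not at hcon
    have h7 : S₁ ≤ N.map S₁.subtype := spn_le fun x y => ⟨p'' x y, hcon x y, rfl⟩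
    apply hN.1
    rw [eq_top_iff]
    rintro ⟨s, hs⟩ _
    obtain ⟨t, ht, hts⟩ := h7 hs
    have : t = ⟨s, hs⟩ := Subtype.ext hts
    rw [← this]; exact ht
  have nX₁ : Nontrivial (X ⧸ kL hp'' N) := by
    refine ⟨Submodule.Quotient.mk x₂, 0, fun h => ?_⟩
    rw [Submodule.Quotient.mk_eq_zero, mem_kL] at h
    exact hxy₂ (h y₂)
  have fin₁ : Finite (X ⧸ kL hp'' N) := Finite.of_surjective _ (Submodule.mkQ_surjective _)
  have fin₂ : Finite (S₁ ⧸ N) := Finite.of_surjective _ (Submodule.mkQ_surjective _)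
  obtain ⟨A, hA⟩ : ∃ A : Submodule RG (X ⧸ kL hp'' N), IsAtom A := IsAtomic.exists_atom _
  have fin₃ : Finite A := Subtype.finite
  have sA : IsSimpleModule RG A := isSimpleModule_iff_isAtom.2 hA
  have nA : Nontrivial A := IsSimpleModule.nontrivial RG A
  have hAne : ∃ (x : A) (y : Y'),
      pcomp A.subtype LinearMap.id LinearMap.id (lq hp'' N) x y ≠ 0 := by
    obtain ⟨x, hx⟩ := exists_ne (0 : A)
    by_contra hcon
    push Not at hcon
    apply hx
    apply Subtype.ext
    exact lq_perfL hp'' N x fun y => hcon x y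
  obtain ⟨-, b, c, -, -, β, γ, -, -⟩ := h1 A Y' (S₁ ⧸ N) sA sY' sS
    ((fX.quot _).sub A) (fY.sub Y') ((fZ.sub S₁).quot N) _
    (pcomp_adm A.subtype LinearMap.id LinearMap.id (lq_adm hp'' N)) hAne
  -- `X / K₁` is `V`
  obtain ⟨a, m, α, hstd, -⟩ := h2 b c (X ⧸ kL hp'' N)
    (pcomp LinearMap.id β.symm.toLinearMap γ.toLinearMap (lq hp'' N))
    (pcomp_adm _ _ _ (lq_adm hp'' N)) (by
      intro x hx
      apply lq_perfL hp'' N
      intro y
      have h7 := hx (β y)
      rw [pcomp_apply] at h7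
      change γ (lq hp'' N x (β.symm (β y))) = 0 at h7
      rwa [LinearEquiv.symm_apply_apply, LinearEquiv.map_eq_zero_iff] at h7)
  have ha : Ty.v = a := by
    have := h5 a
    have hco : IsCoatom (kL hp'' N) :=
      isSimpleModule_iff_isCoatom.1 (IsSimpleModule.congr α)
    obtain ⟨f, hf, hker⟩ := hX _ hco
    have e₁ : (X ⧸ kL hp'' N) ≃ₗ[RG] Md .v :=
      (Submodule.quotEquivOfEq _ _ hker.symm).trans (f.quotKerEquivOfSurjective hf)
    rcases h6 .v a (e₁.symm.trans α).toLinearMap with h7 | ⟨h7, -⟩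
    · exfalso
      obtain ⟨x, hx⟩ := exists_ne (0 : X ⧸ kL hp'' N)
      apply hx
      have h8 := h7 (e₁ x)
      change α (e₁.symm (e₁ x)) = 0 at h8
      rwa [LinearEquiv.symm_apply_apply, LinearEquiv.map_eq_zero_iff] at h8
    · exact h7
  subst ha
  have hb : b = .v ∨ b = .l := by
    cases hstd
    · exact Or.inl rfl
    · exact Or.inr rfl
  -- the local submodule
  have nXb : Nontrivial (X ⧸ kL hp' ⊥) := by
    refine ⟨Submodule.Quotient.mk x₁, 0, fun h => ?_⟩
    rw [Submodule.Quotient.mk_eq_zero, mem_kL] at h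
    exact hxy₁ ((Submodule.mem_bot RG).1 (h y₁))
  have fin₄ : Finite (X ⧸ kL hp' ⊥) := Finite.of_surjective _ (Submodule.mkQ_surjective _)
  obtain ⟨X₁, nX₁', locX₁, hdX₁⟩ := exists_loc (heads_quot hX (kL hp' ⊥))
  have fin₅ : Finite X₁ := Subtype.finite
  set e₀ : (Z ⧸ (⊥ : Submodule RG Z)) ≃ₗ[RG] Z := Submodule.quotEquivOfEqBot ⊥ rfl with he₀
  set p₁ : X₁ →+ Md b →+ Z :=
    pcomp X₁.subtype β.symm.toLinearMap e₀.toLinearMap (lq hp' ⊥) with hp₁def
  have hp₁ : Adm p₁ := pcomp_adm _ _ _ (lq_adm hp' ⊥)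
  have hp₁L : PerfL p₁ := by
    intro x hx
    apply Subtype.ext
    apply lq_perfL hp' ⊥
    intro y
    have h7 := hx (β y)
    change e₀ (lq hp' ⊥ x (β.symm (β y))) = 0 at h7
    rwa [LinearEquiv.symm_apply_apply, LinearEquiv.map_eq_zero_iff] at h7
  obtain ⟨ε⟩ := h4 .v b (by decide) hb X₁ Z ((fX.quot _).sub X₁) fZ locX₁ hdX₁ p₁ hp₁ hp₁L
  rcases h3 .v b Z (pcomp ε.symm.toLinearMap LinearMap.id LinearMap.id p₁)
    (pcomp_adm _ _ _ hp₁) with h7 | ⟨c', m', f, hstd', hf⟩
  · exfalso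
    obtain ⟨x, hx⟩ := exists_ne (0 : X₁)
    apply hx
    apply hp₁L
    intro y
    have h8 := h7 (ε x) y
    change p₁ (ε.symm (ε x)) y = 0 at h8
    rwa [LinearEquiv.symm_apply_apply] at h8
  · -- `f` is nonzero
    have hf0 : ∃ z, f z ≠ 0 := by
      by_contra hcon
      push Not at hcon
      obtain ⟨x, hx⟩ := exists_ne (0 : X₁)
      apply hx
      apply hp₁L
      intro y
      have h8 := hf (ε x) y
      change p₁ (ε.symm (ε x)) y = f _ at h8
      rwa [LinearEquiv.symm_apply_apply, hcon] at h8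
    have sc := h5 c'
    have hinj : Function.Injective f := by
      rw [← LinearMap.ker_eq_bot]
      rcases eq_bot_or_eq_top (LinearMap.ker f) with h8 | h8
      · exact h8
      · exfalso
        obtain ⟨z, hz⟩ := hf0
        apply hz
        rw [← LinearMap.mem_ker, h8]
        exact Submodule.mem_top
    have e₂ : Md c' ≃ₗ[RG] LinearMap.range f := LinearEquiv.ofInjective f hinj
    have hrange : IsAtom (LinearMap.range f) :=
      isSimpleModule_iff_isAtom.1 (IsSimpleModule.congr e₂.symm)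
    have hMle : M ≤ LinearMap.range f := hmin _ hrange.1
    have hMeq : M = LinearMap.range f := by
      rcases hrange.le_iff.1 hMle with h8 | h8
      · exact absurd h8 hM
      · exact h8
    have e₃ : M ≃ₗ[RG] Md c' := (LinearEquiv.ofEq _ _ hMeq).trans e₂.symm
    cases hstd'
    · exact Or.inr ⟨e₃⟩
    · exact Or.inl ⟨e₃⟩

end Pool.Agent.A8
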